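import Pool.Agent.Gss969.SingD

/-!
MP_ce9e93_lc, Q1, positive answer (relative to a 2-superstrong cardinal).

If there is a 2-superstrong cardinal (in the set form of `Gss969.TwoSuperstrong`), then there is an
ordinal `α` with `V_α ⊨ ZFC` such that in `V_α` there is a `Ψ_gss`-large cardinal and the least
`Ψ_gss`-large cardinal is singular.
-/

namespace Pool.Agent.Results.MP_ce9e93_lc.LeastIsSingular

open ZFSet Gss969

universe u

theorem result
    (h : ∃ (β : Ordinal.{u}) (N : ZFSet.{u}) (j : ZFSet.{u} → ZFSet.{u}) (μ : Ordinal.{u}),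
      TwoSuperstrong β N j μ) :
    ∃ α : Ordinal.{u}, ModelsZFC (V_ α) ∧
      ∃ κ ∈ V_ α, CardIn (V_ α) κ ∧ PsiGssLargeIn (V_ α) κ ∧
        (∀ μ ∈ κ, ¬ PsiGssLargeIn (V_ α) μ) ∧ SingularIn (V_ α) κ :=
  Gss969.final2 h

end Pool.Agent.Results.MP_ce9e93_lc.LeastIsSingular
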